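import Mathlib

namespace Pool.Agent.H53.OM

open Finset

/-- the zero positions of `B` below `i` -/
def zer (B i : ℕ) : Finset ℕ := (range i).filter fun j => B.testBit j = false

lemma sum_bits (B : ℕ) : ∀ i : ℕ, B < 2 ^ i →
    ∑ j ∈ (range i).filter (fun j => B.testBit j = true), 2 ^ j = B := by
  intro i
  induction i generalizing B with
  | zero => intro h; simp at h; subst h; simp
  | succ i ih =>
    intro h
    rw [range_add_one, filter_insert]
    by_cases hb : B.testBit i = true
    · rw [if_pos hb, sum_insert (by simp)]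
      have h1 : 2 ^ i ≤ B := Nat.ge_two_pow_of_testBit hb
      have h2 : B - 2 ^ i < 2 ^ i := by rw [pow_succ] at h; omega
      have h3 := ih (B - 2 ^ i) h2
      have h4 : (range i).filter (fun j => B.testBit j = true) =
          (range i).filter (fun j => (B - 2 ^ i).testBit j = true) := by
        apply filter_congr
        intro j hj
        rw [mem_range] at hj
        have h5 : B = 2 ^ i + (B - 2 ^ i) := by omega
        conv_lhs => rw [h5]
        rw [Nat.testBit_two_pow_add_gt hj]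
      rw [h4, h3]
      omega
    · rw [if_neg hb]
      have h1 : B < 2 ^ i := by
        by_contra hc
        push Not at hc
        apply hb
        have : B / 2 ^ i = 1 := by
          apply Nat.div_eq_of_lt_le
          · simpa using hc
          · rw [pow_succ] at h; omega
        rw [Nat.testBit_eq_decide_div_mod_eq, this]
        simp
      exact ih B h1

lemma sum_zer (B i : ℕ) (h : B < 2 ^ i) : ∑ j ∈ zer B i, 2 ^ j + B + 1 = 2 ^ i := by
  have h1 := sum_bits B i h
  have h2 : ∑ j ∈ range i, 2 ^ j + 1 = 2 ^ i := by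
    have := Nat.geomSum_eq (m := 2) le_rfl i
    have h3 : 0 < 2 ^ i := by positivity
    rw [this]
    simp
    omega
  have h3 := sum_filter_add_sum_filter_not (range i) (fun j => B.testBit j = true)
    (fun j => 2 ^ j)
  have h4 : (range i).filter (fun j => ¬ B.testBit j = true) = zer B i := by
    apply filter_congr
    intro j _
    simp
  rw [h4] at h3
  omega

/-- bits of a sum of distinct powers of two -/
lemma testBit_sum (S : Finset ℕ) (j : ℕ) :
    (∑ t ∈ S, 2 ^ t).testBit j = decide (j ∈ S) := by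
  induction S using Finset.induction_on_max with
  | empty => simp
  | insert a s hs ih =>
    rw [sum_insert (fun h => (lt_irrefl _ (hs a h)))]
    have hlt : ∑ t ∈ s, 2 ^ t < 2 ^ a := by
      have h1 : ∑ t ∈ s, 2 ^ t ≤ ∑ t ∈ range a, 2 ^ t :=
        sum_le_sum_of_subset (fun x hx => mem_range.2 (hs x hx))
      have h2 := Nat.geomSum_lt (m := 2) (n := a) (s := range a) le_rfl (by simp)
      omega
    rcases lt_trichotomy j a with h | h | h
    · rw [Nat.testBit_two_pow_add_gt h, ih]
      simp [h.ne]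
    · subst h
      rw [Nat.testBit_two_pow_add_eq, Nat.testBit_lt_two_pow hlt]
      simp
    · have h2 : 2 ^ a + ∑ t ∈ s, 2 ^ t < 2 ^ j := by
        have : 2 ^ (a + 1) ≤ 2 ^ j := Nat.pow_le_pow_right (by norm_num) h
        rw [pow_succ] at this
        omega
      rw [Nat.testBit_lt_two_pow h2]
      have h3 : j ∉ insert a s := by
        intro h4
        rw [mem_insert] at h4
        rcases h4 with h4 | h4
        · omega
        · have := hs j h4; omega
      simp [h3]

/-- the spread lemma: if no subset of the zero positions `P` of `B` moves `T` out of `[B, N)` then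
all shifts are as small as possible -/
lemma spread (N B c k u : ℤ) (P : Finset ℕ) (hB : N ≤ 2 * B) (hB1 : B < N)
    (hku : N ∣ k * u - 1) (hN : ∀ j ∈ P, (2 : ℤ) ^ j ∣ N ∧ ¬ N ∣ (2 : ℤ) ^ j)
    (hP : ∑ j ∈ P, (2 : ℤ) ^ j = N - 1 - B)
    (hbad : ∀ S ⊆ P, B ≤ ((∑ j ∈ S, (2 : ℤ) ^ j - c) * u) % N) :
    ∃ δ : ℕ → ℤ, (∀ j ∈ P, |δ j| = 2 ^ j ∧ N ∣ δ j - 2 ^ j * u) ∧
      ((∑ j ∈ P.filter (fun j => 0 < δ j), (2 : ℤ) ^ j - c) * u) % N = N - 1 ∧
      ((∑ j ∈ P.filter (fun j => ¬ 0 < δ j), (2 : ℤ) ^ j - c) * u) % N = B := by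
  classical
  have hN0 : 0 < N := by linarith [hB, hB1]
  set T : Finset ℕ → ℤ := fun S => ((∑ j ∈ S, (2 : ℤ) ^ j - c) * u) % N with hT
  have hTlt : ∀ S, T S < N := fun S => Int.emod_lt_of_pos _ hN0
  have hTge : ∀ S ⊆ P, B ≤ T S := hbad
  have hTmod : ∀ S, N ∣ T S - (∑ j ∈ S, (2 : ℤ) ^ j - c) * u := by
    intro S
    have := Int.emod_add_mul_ediv ((∑ j ∈ S, (2 : ℤ) ^ j - c) * u) N
    refine ⟨-(((∑ j ∈ S, (2 : ℤ) ^ j - c) * u) / N), ?_⟩
    simp only [hT]
    linarith
  set δ : ℕ → ℤ := fun j => T {j} - T ∅ with hδ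
  have hδmod : ∀ j, N ∣ δ j - 2 ^ j * u := by
    intro j
    have h1 := hTmod {j}
    have h2 := hTmod ∅
    rw [sum_singleton] at h1
    rw [sum_empty] at h2
    have h3 := dvd_sub h1 h2
    have h4 : δ j - 2 ^ j * u = T {j} - (2 ^ j - c) * u - (T ∅ - (0 - c) * u) := by
      simp only [hδ]; ring
    rw [h4]
    exact h3
  have hδabs : ∀ j ∈ P, (2 : ℤ) ^ j ≤ |δ j| := by
    intro j hj
    have h1 : (2 : ℤ) ^ j ∣ δ j := by
      have h2 := (hN j hj).1.trans (hδmod j)
      have h3 : (2 : ℤ) ^ j ∣ 2 ^ j * u := dvd_mul_right _ _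
      have := dvd_add h2 h3
      simpa using this
    have h2 : δ j ≠ 0 := by
      intro h0
      have h3 := hδmod j
      rw [h0, zero_sub] at h3
      have h4 : N ∣ 2 ^ j * u := by simpa using h3
      have h5 : N ∣ 2 ^ j * (k * u) := by
        have := h4.mul_left k
        rwa [show k * (2 ^ j * u) = 2 ^ j * (k * u) by ring] at this
      have h6 : N ∣ 2 ^ j * (k * u - 1) := hku.mul_left _
      have h7 := dvd_sub h5 h6
      rw [show (2 : ℤ) ^ j * (k * u) - 2 ^ j * (k * u - 1) = 2 ^ j by ring] at h7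
      exact (hN j hj).2 h7
    exact Int.le_of_dvd (abs_pos.2 h2) ((dvd_abs _ _).2 h1)
  have hins : ∀ S ⊆ P, ∀ j ∈ P, j ∉ S → T (insert j S) = T S + δ j := by
    intro S hS j hj hjS
    have h1 := hTmod (insert j S)
    have h2 := hTmod S
    rw [sum_insert hjS] at h1
    have h3 : N ∣ T (insert j S) - (T S + δ j) := by
      have h4 := dvd_sub (dvd_sub h1 h2) (hδmod j)
      rw [show T (insert j S) - (2 ^ j + ∑ x ∈ S, 2 ^ x - c) * u - (T S - (∑ j ∈ S, 2 ^ j - c) * u)
        - (δ j - 2 ^ j * u) = T (insert j S) - (T S + δ j) by ring] at h4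
      exact h4
    have h5 : |T (insert j S) - (T S + δ j)| < N := by
      have a1 := hTlt (insert j S)
      have a2 := hTge (insert j S) (insert_subset hj hS)
      have a3 := hTlt S
      have a4 := hTge S hS
      have a5 := hTlt {j}
      have a6 := hTge {j} (by simpa using hj)
      have a7 := hTlt ∅
      have a8 := hTge ∅ (empty_subset _)
      simp only [hδ]
      rw [abs_lt]
      constructor <;> linarith
    have h6 := Int.eq_zero_of_abs_lt_dvd h3 h5
    linarith
  have hsum : ∀ S ⊆ P, T S = T ∅ + ∑ j ∈ S, δ j := by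
    intro S
    induction S using Finset.induction_on with
    | empty => intro _; simp
    | insert a s ha ih =>
      intro hs
      have hs' : s ⊆ P := fun x hx => hs (mem_insert_of_mem hx)
      rw [hins s hs' a (hs (mem_insert_self _ _)) ha, ih hs', sum_insert ha]
      ring
  set Sp := P.filter (fun j => 0 < δ j) with hSp
  set Sm := P.filter (fun j => ¬ 0 < δ j) with hSm
  have hp1 := hsum Sp (filter_subset _ _)
  have hm1 := hsum Sm (filter_subset _ _)
  have habs : ∑ j ∈ P, |δ j| = ∑ j ∈ Sp, δ j - ∑ j ∈ Sm, δ j := by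
    rw [← sum_filter_add_sum_filter_not P (fun j => 0 < δ j)]
    have e1 : ∑ j ∈ P.filter (fun j => 0 < δ j), |δ j| = ∑ j ∈ Sp, δ j :=
      sum_congr rfl (fun j hj => abs_of_pos (mem_filter.1 hj).2)
    have e2 : ∑ j ∈ P.filter (fun j => ¬ 0 < δ j), |δ j| = - ∑ j ∈ Sm, δ j := by
      rw [← sum_neg_distrib]
      exact sum_congr rfl (fun j hj => abs_of_nonpos (not_lt.1 (mem_filter.1 hj).2))
    rw [e1, e2]
    ring
  have hge : ∑ j ∈ P, (2 : ℤ) ^ j ≤ ∑ j ∈ P, |δ j| := sum_le_sum hδabs
  have b1 := hTlt Sp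
  have b2 := hTge Sm (filter_subset _ _)
  have hSpv : T Sp = N - 1 := by linarith
  have hSmv : T Sm = B := by linarith
  have heq : ∑ j ∈ P, (2 : ℤ) ^ j = ∑ j ∈ P, |δ j| := by linarith
  have hall : ∀ j ∈ P, (2 : ℤ) ^ j = |δ j| := (sum_eq_sum_iff_of_le hδabs).1 heq
  exact ⟨δ, fun j hj => ⟨(hall j hj).symm, hδmod j⟩, hSpv, hSmv⟩

end Pool.Agent.H53.OM
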