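import Mathlib
import Pool.Agent.H53.OM.Cover

namespace Pool.Agent.H53.OM

open Finset

lemma sum_lt_two_pow (S : Finset ℕ) (i : ℕ) (hS : ∀ j ∈ S, j < i) : ∑ j ∈ S, 2 ^ j < 2 ^ i := by
  have h1 : ∑ t ∈ S, 2 ^ t ≤ ∑ t ∈ range i, 2 ^ t :=
    sum_le_sum_of_subset (fun x hx => mem_range.2 (hS x hx))
  have h2 := Nat.geomSum_lt (m := 2) (n := i) (s := range i) le_rfl (by simp)
  omega

lemma good_of {B i k c u t m : ℕ} {S : Finset ℕ} (hS : S ⊆ zer B i) (hBi : B < 2 ^ i)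
    (hc : c < k) (hu : ((2 ^ i : ℕ) : ℤ) ∣ (k : ℤ) * u - 1)
    (ht : ((2 ^ i : ℕ) : ℤ) ∣ (t : ℤ) - (∑ j ∈ S, (2 : ℤ) ^ j - c) * u)
    (hlt : c + k * t < m) :
    ∃ e < m, e % k = c ∧ ∀ j, e.testBit j = true → B.testBit j = false := by
  refine ⟨c + k * t, hlt, ?_, ?_⟩
  · rw [Nat.add_mul_mod_self_left, Nat.mod_eq_of_lt hc]
  · intro j hj
    rcases lt_or_ge j i with hji | hji
    · have hSi : ∀ j ∈ S, j < i := fun j hj => by
        have := hS hj
        rw [zer, mem_filter, mem_range] at this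
        exact this.1
      have h1 : ((2 ^ i : ℕ) : ℤ) ∣ ((c + k * t : ℕ) : ℤ) - ((∑ j ∈ S, 2 ^ j : ℕ) : ℤ) := by
        have h2 := ht.mul_left (k : ℤ)
        have h3 := hu.mul_left (∑ j ∈ S, (2 : ℤ) ^ j - c)
        have h4 := dvd_add h2 h3
        push_cast
        push_cast at h4
        rw [show (k : ℤ) * (t - (∑ j ∈ S, 2 ^ j - c) * u) + (∑ j ∈ S, 2 ^ j - c) * (k * u - 1) =
          c + k * t - ∑ j ∈ S, 2 ^ j by ring] at h4
        exact h4
      have h2 : (c + k * t) % 2 ^ i = ∑ j ∈ S, 2 ^ j := by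
        have h3 : (∑ j ∈ S, 2 ^ j) ≡ c + k * t [MOD 2 ^ i] :=
          (Nat.modEq_iff_dvd).2 h1
        have h4 := h3.symm
        rw [Nat.ModEq, Nat.mod_eq_of_lt (sum_lt_two_pow S i hSi)] at h4
        exact h4
      have h3 : (c + k * t).testBit j = ((c + k * t) % 2 ^ i).testBit j := by
        rw [Nat.testBit_mod_two_pow]
        simp [hji]
      rw [h3, h2, testBit_sum] at hj
      have h4 : j ∈ S := by simpa using hj
      have h5 := hS h4
      rw [zer, mem_filter] at h5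
      exact h5.2
    · apply Nat.testBit_lt_two_pow
      exact lt_of_lt_of_le hBi (Nat.pow_le_pow_right (by norm_num) hji)

theorem cover (l i k c : ℕ) (hodd : Odd k) (h1 : 2 ^ l < k) (h2 : k < 2 ^ (l + 1)) (hi : 1 ≤ i)
    (hc : c < k)
    (hcase : l < i ∨ ∃ j < i, (2 ^ (l + i) / k).testBit j = false ∧
      k % 2 ^ (i - j) ≠ 1 ∧ k % 2 ^ (i - j) ≠ 2 ^ (i - j) - 1) :
    ∃ e < 2 ^ (l + i), e % k = c ∧
      ∀ j, e.testBit j = true → (2 ^ (l + i) / k).testBit j = false := by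
  set B := 2 ^ (l + i) / k with hB
  set ρ := 2 ^ (l + i) % k with hρ
  have hdm : k * B + ρ = 2 ^ (l + i) := Nat.div_add_mod _ _
  have hk0 : 0 < k := lt_of_le_of_lt (Nat.zero_le _) h1
  have hρk : ρ < k := Nat.mod_lt _ hk0
  have hBi : B < 2 ^ i := by
    rw [hB, Nat.div_lt_iff_lt_mul hk0, pow_add, mul_comm]
    exact Nat.mul_lt_mul_of_pos_left h1 (by positivity)
  have hBi2 : 2 ^ i ≤ 2 * B := by
    have h3 : 2 ^ (i - 1) ≤ B := by
      rw [hB, Nat.le_div_iff_mul_le hk0]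
      calc 2 ^ (i - 1) * k ≤ 2 ^ (i - 1) * 2 ^ (l + 1) := Nat.mul_le_mul_left _ h2.le
        _ = 2 ^ (l + i) := by rw [← pow_add]; congr 1; omega
    have h4 : 2 ^ i = 2 * 2 ^ (i - 1) := by
      rw [← pow_succ']; congr 1; omega
    omega
  obtain ⟨u, hu⟩ : ∃ u : ℕ, ((2 ^ i : ℕ) : ℤ) ∣ (k : ℤ) * u - 1 := by
    have hcop : Nat.Coprime k (2 ^ i) := Nat.Coprime.pow_right _ (hodd.coprime_two_right)
    have h1i : 1 < 2 ^ i := Nat.one_lt_two_pow (by omega)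
    obtain ⟨m, hm⟩ := Nat.exists_mul_mod_eq_one_of_coprime hcop h1i
    refine ⟨m, ?_⟩
    have h3 : 1 ≡ k * m [MOD 2 ^ i] := by
      rw [Nat.ModEq, Nat.mod_eq_of_lt h1i, hm.2]
    have := (Nat.modEq_iff_dvd).1 h3
    push_cast at this ⊢
    exact this
  by_contra hcon
  have hno : ∀ S ⊆ zer B i, ∀ t : ℕ,
      ((2 ^ i : ℕ) : ℤ) ∣ (t : ℤ) - (∑ j ∈ S, (2 : ℤ) ^ j - c) * u →
      2 ^ (l + i) ≤ c + k * t := by
    intro S hS t ht
    by_contra hlt
    exact hcon (good_of hS hBi hc hu ht (not_le.1 hlt))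
  have hNpos : (0 : ℤ) < ((2 ^ i : ℕ) : ℤ) := by positivity
  have hmoddvd : ∀ x : ℤ, ((2 ^ i : ℕ) : ℤ) ∣ x % ((2 ^ i : ℕ) : ℤ) - x := by
    intro x
    refine ⟨-(x / ((2 ^ i : ℕ) : ℤ)), ?_⟩
    have := Int.emod_add_mul_ediv x ((2 ^ i : ℕ) : ℤ)
    linarith
  have hPsum := sum_zer B i hBi
  have hjlt : ∀ j ∈ zer B i, j < i := fun j hj => by
    rw [zer, mem_filter, mem_range] at hj
    exact hj.1
  obtain ⟨δ, hδ, hSp, hSm⟩ := spread ((2 ^ i : ℕ) : ℤ) (B : ℤ) (c : ℤ) (k : ℤ) (u : ℤ) (zer B i)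
    (by exact_mod_cast hBi2) (by exact_mod_cast hBi) hu
    (by
      intro j hj
      have hj' := hjlt j hj
      constructor
      · push_cast
        exact pow_dvd_pow 2 hj'.le
      · intro hd
        have : (2 ^ i : ℕ) ∣ 2 ^ j := by exact_mod_cast hd
        have := Nat.le_of_dvd (by positivity) this
        have h3 : 2 ^ j < 2 ^ i := Nat.pow_lt_pow_right (by norm_num) hj'
        omega)
    (by
      have : ((∑ j ∈ zer B i, 2 ^ j + B + 1 : ℕ) : ℤ) = ((2 ^ i : ℕ) : ℤ) := by rw [hPsum]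
      push_cast at this ⊢
      linarith)
    (by
      intro S hS
      by_contra hlt
      push Not at hlt
      set x : ℤ := (∑ j ∈ S, (2 : ℤ) ^ j - c) * u with hx
      have h0 : 0 ≤ x % ((2 ^ i : ℕ) : ℤ) := Int.emod_nonneg _ hNpos.ne'
      obtain ⟨t, ht⟩ := Int.eq_ofNat_of_zero_le h0
      have h3 := hno S hS t (by rw [← ht]; exact hmoddvd x)
      rw [ht] at hlt
      have h4 : t + 1 ≤ B := by exact_mod_cast hlt
      have h5 : k * (t + 1) ≤ k * B := Nat.mul_le_mul_left _ h4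
      rw [mul_add, mul_one] at h5
      omega)
  set Sp := (zer B i).filter (fun j => 0 < δ j) with hSpd
  set Sm := (zer B i).filter (fun j => ¬ 0 < δ j) with hSmd
  -- the second alternative is impossible
  have hpm : ∀ j ∈ zer B i, k % 2 ^ (i - j) = 1 ∨ k % 2 ^ (i - j) = 2 ^ (i - j) - 1 := by
    intro j hj
    obtain ⟨ha, hd⟩ := hδ j hj
    have hj' := hjlt j hj
    have hN2 : ((2 ^ i : ℕ) : ℤ) = 2 ^ j * 2 ^ (i - j) := by
      push_cast
      rw [← pow_add]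
      congr 1
      omega
    have hpos : (0 : ℤ) < 2 ^ j := by positivity
    have h1i : 1 < 2 ^ (i - j) := Nat.one_lt_two_pow (by omega)
    rcases abs_eq (hpos.le) |>.1 ha with h | h
    · left
      rw [h, hN2] at hd
      have h3 : (2 : ℤ) ^ (i - j) ∣ 1 - u := by
        have : (2 : ℤ) ^ j * 2 ^ (i - j) ∣ 2 ^ j * (1 - u) := by
          rw [show (2 : ℤ) ^ j * (1 - u) = 2 ^ j - 2 ^ j * u by ring]; exact hd
        exact (mul_dvd_mul_iff_left hpos.ne').1 this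
      have h4 : (2 : ℤ) ^ (i - j) ∣ (k : ℤ) * u - 1 := by
        refine dvd_trans ?_ hu
        rw [hN2]; exact dvd_mul_left _ _
      have h5 : (2 : ℤ) ^ (i - j) ∣ (k : ℤ) - 1 := by
        have := dvd_add (h3.mul_left (k : ℤ)) h4
        rw [show (k : ℤ) * (1 - u) + (k * u - 1) = k - 1 by ring] at this
        exact this
      have h6 : 1 ≡ k [MOD 2 ^ (i - j)] := by
        rw [Nat.modEq_iff_dvd]; push_cast; exact h5
      have h7 := h6.symm
      rwa [Nat.ModEq, Nat.mod_eq_of_lt h1i] at h7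
    · right
      rw [h, hN2] at hd
      have h3 : (2 : ℤ) ^ (i - j) ∣ 1 + u := by
        have : (2 : ℤ) ^ j * 2 ^ (i - j) ∣ 2 ^ j * (1 + u) := by
          rw [show (2 : ℤ) ^ j * (1 + u) = -(- 2 ^ j - 2 ^ j * u) by ring]
          exact (dvd_neg).2 hd
        exact (mul_dvd_mul_iff_left hpos.ne').1 this
      have h4 : (2 : ℤ) ^ (i - j) ∣ (k : ℤ) * u - 1 := by
        refine dvd_trans ?_ hu
        rw [hN2]; exact dvd_mul_left _ _
      have h5 : (2 : ℤ) ^ (i - j) ∣ (k : ℤ) + 1 := by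
        have := dvd_sub (h3.mul_left (k : ℤ)) h4
        rw [show (k : ℤ) * (1 + u) - (k * u - 1) = k + 1 by ring] at this
        exact this
      have h6 : 2 ^ (i - j) ∣ k + 1 := by exact_mod_cast h5
      obtain ⟨w, hw⟩ := h6
      have hw1 : 1 ≤ w := by
        rcases Nat.eq_zero_or_pos w with h | h
        · subst h; omega
        · exact h
      obtain ⟨v, rfl⟩ : ∃ v, w = v + 1 := ⟨w - 1, by omega⟩
      have h8 : k = 2 ^ (i - j) * v + (2 ^ (i - j) - 1) := by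
        rw [mul_add, mul_one] at hw
        omega
      conv_lhs => rw [h8]
      rw [Nat.mul_add_mod, Nat.mod_eq_of_lt (by omega)]
  rcases hcase with hli | ⟨j, hj, hjB, hj1, hj2⟩
  swap
  · have hjP : j ∈ zer B i := by rw [zer, mem_filter, mem_range]; exact ⟨hj, hjB⟩
    rcases hpm j hjP with h | h
    · exact hj1 h
    · exact hj2 h
  -- now `l < i`, so `k < 2 ^ i`
  have hkN : k < 2 ^ i := lt_of_lt_of_le h2 (Nat.pow_le_pow_right (by norm_num) hli)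
  have hSpP : Sp ⊆ zer B i := filter_subset _ _
  have hSmP : Sm ⊆ zer B i := filter_subset _ _
  have hmB := hno Sm hSmP B (by
    have := hmoddvd ((∑ j ∈ Sm, (2 : ℤ) ^ j - c) * u)
    rw [hSm] at this
    exact this)
  have hρc : ρ ≤ c := by omega
  -- value of x^-
  have hxm : ∑ j ∈ Sm, 2 ^ j = c - ρ := by
    have h3 : ((2 ^ i : ℕ) : ℤ) ∣ (B : ℤ) - (∑ j ∈ Sm, (2 : ℤ) ^ j - c) * u := by
      have := hmoddvd ((∑ j ∈ Sm, (2 : ℤ) ^ j - c) * u)
      rw [hSm] at this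
      exact this
    have h4 := dvd_add (h3.mul_left (k : ℤ)) (hu.mul_left (∑ j ∈ Sm, (2 : ℤ) ^ j - c))
    rw [show (k : ℤ) * (B - (∑ j ∈ Sm, 2 ^ j - c) * u) + (∑ j ∈ Sm, 2 ^ j - c) * (k * u - 1) =
      c + k * B - ∑ j ∈ Sm, 2 ^ j by ring] at h4
    have h5 : ((2 ^ i : ℕ) : ℤ) ∣ ((2 ^ (l + i) : ℕ) : ℤ) := by
      exact_mod_cast pow_dvd_pow 2 (Nat.le_add_left i l)
    have h6 : ((2 ^ i : ℕ) : ℤ) ∣ ((c - ρ : ℕ) : ℤ) - ((∑ j ∈ Sm, 2 ^ j : ℕ) : ℤ) := by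
      have h7 := dvd_sub h4 h5
      have h8 : ((2 ^ (l + i) : ℕ) : ℤ) = (k : ℤ) * B + ρ := by rw [← hdm]; push_cast; ring
      rw [h8] at h7
      rw [Nat.cast_sub hρc]
      push_cast
      rw [show (c : ℤ) + k * B - ∑ j ∈ Sm, 2 ^ j - (k * B + ρ) = c - ρ - ∑ j ∈ Sm, 2 ^ j by ring]
        at h7
      exact_mod_cast h7
    have h7 : (∑ j ∈ Sm, 2 ^ j) ≡ c - ρ [MOD 2 ^ i] := (Nat.modEq_iff_dvd).2 h6
    rw [Nat.ModEq, Nat.mod_eq_of_lt (sum_lt_two_pow Sm i (fun j hj => hjlt j (hSmP hj))),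
      Nat.mod_eq_of_lt (by omega)] at h7
    exact h7
  have hxp : ∑ j ∈ Sp, 2 ^ j = c + 2 ^ i - k := by
    have h3 : ((2 ^ i : ℕ) : ℤ) ∣ (((2 ^ i : ℕ) : ℤ) - 1) - (∑ j ∈ Sp, (2 : ℤ) ^ j - c) * u := by
      have := hmoddvd ((∑ j ∈ Sp, (2 : ℤ) ^ j - c) * u)
      rw [hSp] at this
      exact this
    have h4 := dvd_add (h3.mul_left (k : ℤ)) (hu.mul_left (∑ j ∈ Sp, (2 : ℤ) ^ j - c))
    rw [show (k : ℤ) * (((2 ^ i : ℕ) : ℤ) - 1 - (∑ j ∈ Sp, 2 ^ j - c) * u) +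
      (∑ j ∈ Sp, 2 ^ j - c) * (k * u - 1) =
      c + k * ((2 ^ i : ℕ) : ℤ) - k - ∑ j ∈ Sp, 2 ^ j by ring] at h4
    have h5 : ((2 ^ i : ℕ) : ℤ) ∣ ((c + 2 ^ i - k : ℕ) : ℤ) - ((∑ j ∈ Sp, 2 ^ j : ℕ) : ℤ) := by
      have h7 := dvd_add (dvd_sub h4 (dvd_mul_left ((2 ^ i : ℕ) : ℤ) (k : ℤ)))
        (dvd_refl ((2 ^ i : ℕ) : ℤ))
      rw [Nat.cast_sub (by omega)]
      rw [show (c : ℤ) + k * ((2 ^ i : ℕ) : ℤ) - k - ∑ j ∈ Sp, 2 ^ j - k * ((2 ^ i : ℕ) : ℤ) +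
        ((2 ^ i : ℕ) : ℤ) = ((c + 2 ^ i : ℕ) : ℤ) - k - ((∑ j ∈ Sp, 2 ^ j : ℕ) : ℤ) by
          push_cast; ring] at h7
      exact h7
    have h7 : (∑ j ∈ Sp, 2 ^ j) ≡ c + 2 ^ i - k [MOD 2 ^ i] := (Nat.modEq_iff_dvd).2 h5
    rw [Nat.ModEq, Nat.mod_eq_of_lt (sum_lt_two_pow Sp i (fun j hj => hjlt j (hSpP hj))),
      Nat.mod_eq_of_lt (by omega)] at h7
    exact h7
  have hpmsum : ∑ j ∈ Sp, 2 ^ j + ∑ j ∈ Sm, 2 ^ j = ∑ j ∈ zer B i, 2 ^ j :=
    sum_filter_add_sum_filter_not _ _ _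
  -- Sp is nonempty; hence u = 1 mod 4
  have htop : ∀ j ∈ zer B i, 2 ≤ i - j := by
    intro j hj
    have hj' := hjlt j hj
    by_contra hlt
    have hji : j = i - 1 := by omega
    rw [zer, mem_filter, hji] at hj
    have h3 : B.testBit (i - 1) = true := by
      rw [Nat.testBit_eq_decide_div_mod_eq]
      have h4 : B / 2 ^ (i - 1) = 1 := by
        have h5 : 2 ^ i = 2 * 2 ^ (i - 1) := by rw [← pow_succ']; congr 1; omega
        apply Nat.div_eq_of_lt_le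
        · omega
        · omega
      rw [h4]; simp
    rw [h3] at hj
    exact absurd hj.2 (by simp)
  have hfour : ∀ j ∈ zer B i, (4 : ℤ) ∣ 2 ^ (i - j) := by
    intro j hj
    exact pow_dvd_pow 2 (htop j hj)
  have hSmempty : Sm = ∅ := by
    by_contra hne
    obtain ⟨j', hj'⟩ := nonempty_iff_ne_empty.2 hne
    have hSpne : Sp.Nonempty := by
      by_contra hemp
      rw [not_nonempty_iff_eq_empty] at hemp
      rw [hemp, sum_empty] at hxp
      omega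
    obtain ⟨j, hj⟩ := hSpne
    have e1 : ∀ t ∈ zer B i, ∀ s : ℤ, δ t = s * 2 ^ t → (4 : ℤ) ∣ s - u := by
      intro t ht s hs
      have hd := (hδ t ht).2
      have hN2 : ((2 ^ i : ℕ) : ℤ) = 2 ^ t * 2 ^ (i - t) := by
        push_cast
        rw [← pow_add]
        congr 1
        have := hjlt t ht
        omega
      rw [hs, hN2] at hd
      have hpos : (0 : ℤ) < 2 ^ t := by positivity
      have : (2 : ℤ) ^ t * 2 ^ (i - t) ∣ 2 ^ t * (s - u) := by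
        rw [show (2 : ℤ) ^ t * (s - u) = s * 2 ^ t - 2 ^ t * u by ring]; exact hd
      exact (hfour t ht).trans ((mul_dvd_mul_iff_left hpos.ne').1 this)
    have hj2 := mem_filter.1 hj
    have hj2' := mem_filter.1 hj'
    have f1 := e1 j hj2.1 1 (by
      have := (hδ j hj2.1).1
      rw [abs_of_pos hj2.2] at this
      rw [this]; ring)
    have f2 := e1 j' hj2'.1 (-1) (by
      have := (hδ j' hj2'.1).1
      rw [abs_of_nonpos (not_lt.1 hj2'.2)] at this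
      linarith)
    have f3 := dvd_sub f1 f2
    have f4 : (1 : ℤ) - u - (-1 - u) = 2 := by ring
    rw [f4] at f3
    norm_num at f3
  rw [hSmempty, sum_empty] at hxm hpmsum
  have hcρ : c = ρ := by omega
  have hBk : B + 1 + ρ = k := by omega
  have hfin : (k - 1) * (B + 1) = 2 ^ (l + i) := by
    have h3 : k * (B + 1) = 2 ^ (l + i) + (B + 1) := by
      rw [← hdm, mul_add, mul_one]; omega
    have h4 : (k - 1) * (B + 1) + (B + 1) = k * (B + 1) := by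
      conv_rhs => rw [show k = (k - 1) + 1 by omega]
      ring
    omega
  obtain ⟨s, hs, hks⟩ := (Nat.dvd_prime_pow Nat.prime_two).1
    (show k - 1 ∣ 2 ^ (l + i) from ⟨B + 1, hfin.symm⟩)
  have hsl : s = l := by
    have h3 : 2 ^ l ≤ 2 ^ s := by omega
    have h4 : 2 ^ s < 2 ^ (l + 1) := by omega
    have h5 := (Nat.pow_le_pow_iff_right (by norm_num : 1 < 2)).1 h3
    have h6 := (Nat.pow_lt_pow_iff_right (by norm_num : 1 < 2)).1 h4
    omega
  subst hsl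
  have hBN : B + 1 = 2 ^ i := by
    rw [hks, pow_add] at hfin
    exact Nat.eq_of_mul_eq_mul_left (by positivity) hfin
  omega

end Pool.Agent.H53.OM
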