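import Mathlib
import Pool.Agent.H53.OM.Cover2

namespace Pool.Agent.H53.OM

/-- every binary digit `1` of `x` is a binary digit `1` of `y` -/
def Dom (x y : ℕ) : Prop := ∀ j, x.testBit j = true → y.testBit j = true

lemma testBit_pred_of_odd {B j : ℕ} (hB : Odd B) (h : B.testBit j = false) :
    (B - 1).testBit j = false := by
  obtain ⟨t, rfl⟩ := hB
  simp only [Nat.add_sub_cancel]
  rcases Nat.eq_zero_or_pos j with h0 | h0
  · subst h0
    simp
  · obtain ⟨i, rfl⟩ : ∃ i, j = i + 1 := ⟨j - 1, by omega⟩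
    rw [Nat.testBit_succ] at h ⊢
    rw [show 2 * t / 2 = t by omega]
    rwa [show (2 * t + 1) / 2 = t by omega] at h

theorem exists_dom {k a n i l : ℕ} (hodd : Odd k) (h3 : 3 ≤ k) (hi : 1 ≤ i) (hia : i ≤ a)
    (hl1 : 2 ^ l < k) (hl2 : k < 2 ^ (l + 1)) (hn : a + l + i ≤ n)
    (hB : Odd (2 ^ (l + i) / k) ∨ l + i < a)
    (hcase : l < i ∨ ∃ j < i, (2 ^ (l + i) / k).testBit j = false ∧
      k % 2 ^ (i - j) ≠ 1 ∧ k % 2 ^ (i - j) ≠ 2 ^ (i - j) - 1) :
    k ∣ 2 ^ n - 1 ∨ ∃ d, 0 < d ∧ d < 2 ^ n - 1 ∧ Dom d (2 ^ a * k * d % (2 ^ n - 1)) := by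
  by_cases hdiv : k ∣ 2 ^ n - 1
  · exact Or.inl hdiv
  right
  set m := l + i with hm
  set B := 2 ^ m / k with hBdef
  set ρ := 2 ^ m % k with hρ
  have hk0 : 0 < k := by omega
  have hdm : k * B + ρ = 2 ^ m := Nat.div_add_mod _ _
  have hcop : ∀ t, Nat.Coprime k (2 ^ t) := fun t =>
    Nat.Coprime.pow_right _ (hodd.coprime_two_right)
  have hρpos : 0 < ρ := by
    rcases Nat.eq_zero_or_pos ρ with h | h
    · exfalso
      have h4 : k ∣ 2 ^ m := Nat.dvd_of_mod_eq_zero h
      have h5 := Nat.Coprime.eq_one_of_dvd (hcop m) h4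
      omega
    · exact h
  have hBi : B + 1 ≤ 2 ^ i := by
    have : B < 2 ^ i := by
      rw [hBdef, Nat.div_lt_iff_lt_mul hk0, hm, pow_add, mul_comm]
      exact Nat.mul_lt_mul_of_pos_left hl1 (by positivity)
    omega
  -- the number `c₁`
  obtain ⟨c1, hc1lt, hc1⟩ := Nat.exists_mul_mod_eq_one_of_coprime
    ((hcop (n - (a + m))).symm) (by omega : 1 < k)
  have hc1pos : 0 < c1 := by
    rcases Nat.eq_zero_or_pos c1 with h | h
    · subst h; simp at hc1
    · exact h
  set w := 2 ^ (n - (a + m)) * c1 / k with hw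
  have hw1 : 2 ^ (n - (a + m)) * c1 = k * w + 1 := by
    have := Nat.div_add_mod (2 ^ (n - (a + m)) * c1) k
    rw [hc1, ← hw] at this
    exact this.symm
  set M := 2 ^ n - 1 with hM
  have h2n : 2 ^ (a + m) ≤ 2 ^ n := Nat.pow_le_pow_right (by norm_num) (by omega)
  have h2m : 2 ^ m ≤ 2 ^ (a + m) := Nat.pow_le_pow_right (by norm_num) (by omega)
  have ha2 : 2 ≤ 2 ^ a := by
    calc 2 = 2 ^ 1 := rfl
      _ ≤ 2 ^ a := Nat.pow_le_pow_right (by norm_num) (by omega)
  have ham : 2 ^ (a + m) = 2 ^ a * 2 ^ m := pow_add _ _ _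
  have hmpos : 0 < 2 ^ m := by positivity
  have ham2 : 2 * 2 ^ m ≤ 2 ^ (a + m) := by rw [ham]; exact Nat.mul_le_mul_right _ ha2
  have hkm : k < 2 ^ m := lt_of_lt_of_le hl2 (Nat.pow_le_pow_right (by norm_num) (by omega))
  have hMpos : 0 < M := by omega
  have hcne : (c1 * M) % k ≠ 0 := by
    intro h
    have h4 : k ∣ c1 * M := Nat.dvd_of_mod_eq_zero h
    have h5 : Nat.Coprime k c1 := by
      have h6 : Nat.Coprime k (k * w + 1) := by
        rw [Nat.coprime_mul_left_add_right]; exact Nat.coprime_one_right k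
      rw [← hw1] at h6
      exact Nat.Coprime.coprime_mul_left_right h6
    exact hdiv (h5.dvd_of_dvd_mul_left h4)
  obtain ⟨e, helt, hek, heB⟩ := cover l i k ((c1 * M) % k) hodd hl1 hl2 hi (Nat.mod_lt _ hk0) hcase
  rw [← hm] at helt heB
  have hepos : 0 < e := by
    rcases Nat.eq_zero_or_pos e with h | h
    · subst h; simp at hek; exact absurd hek.symm hcne
    · exact h
  have hMe : e < c1 * M := by
    have h4 : e < M := by omega
    calc e < M := h4
      _ ≤ c1 * M := Nat.le_mul_of_pos_left _ hc1pos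
  have hdvd : k ∣ c1 * M - e := (Nat.modEq_iff_dvd' hMe.le).1 hek
  obtain ⟨d, hd⟩ := hdvd
  have hd' : c1 * M = k * d + e := by omega
  have hdpos : 0 < d := by
    rcases Nat.eq_zero_or_pos d with h | h
    · subst h; simp at hd; omega
    · exact h
  have hdM : d < M := by
    have h4 : k * d < k * M := by
      have h5 : c1 * M ≤ k * M := Nat.mul_le_mul_right _ hc1lt.le
      omega
    exact Nat.lt_of_mul_lt_mul_left h4
  refine ⟨d, hdpos, hdM, ?_⟩
  -- the value of `2 ^ a * k * d mod M`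
  have hfM : 2 ^ a * e < M := by
    have h4 : 2 ^ a * e ≤ 2 ^ a * (2 ^ m - 1) := Nat.mul_le_mul_left _ (by omega)
    have h5 : 2 ^ a * (2 ^ m - 1) = 2 ^ (a + m) - 2 ^ a := by
      rw [Nat.mul_sub, mul_one, ← ham]
    have h6 : 2 ^ a ≤ 2 ^ (a + m) := Nat.pow_le_pow_right (by norm_num) (by omega)
    rw [h5] at h4
    omega
  have hfpos : 0 < 2 ^ a * e := by positivity
  have hval : 2 ^ a * k * d % M = 2 ^ n - (2 ^ a * e + 1) := by
    have h4 : 2 ^ a * k * d + 2 ^ a * e = 2 ^ a * c1 * M := by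
      rw [mul_assoc, ← mul_add, ← hd', mul_assoc]
    obtain ⟨s, hs⟩ : ∃ s, 2 ^ a * c1 = s + 1 := ⟨2 ^ a * c1 - 1, by
      have : 0 < 2 ^ a * c1 := by positivity
      omega⟩
    rw [hs, add_mul, one_mul] at h4
    have h5 : 2 ^ a * k * d = M * s + (M - 2 ^ a * e) := by
      rw [mul_comm M s]
      omega
    rw [h5, Nat.mul_add_mod, Nat.mod_eq_of_lt (by omega)]
    omega
  rw [hval]
  intro j hj
  have hdn : d < 2 ^ n := by omega
  have hjn : j < n := by
    by_contra hge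
    have := Nat.testBit_lt_two_pow (lt_of_lt_of_le hdn
      (Nat.pow_le_pow_right (by norm_num) (not_lt.1 hge)))
    rw [this] at hj
    exact absurd hj (by simp)
  rw [Nat.testBit_two_pow_sub_succ (by omega)]
  simp only [hjn, decide_true, Bool.true_and, Bool.not_eq_true']
  rw [Nat.testBit_two_pow_mul]
  by_contra hcon
  simp only [Bool.not_eq_false, Bool.and_eq_true, decide_eq_true_eq, ge_iff_le] at hcon
  obtain ⟨haj, hej⟩ := hcon
  have hBj := heB _ hej
  have hjm : j - a < m := by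
    by_contra hge
    have := Nat.testBit_lt_two_pow (lt_of_lt_of_le helt
      (Nat.pow_le_pow_right (by norm_num) (not_lt.1 hge)))
    rw [this] at hej
    exact absurd hej (by simp)
  -- the low digits of `d`
  have h2nw : c1 * 2 ^ n = (k * w + 1) * 2 ^ (a + m) := by
    rw [← hw1]
    have : 2 ^ n = 2 ^ (n - (a + m)) * 2 ^ (a + m) := by
      rw [← pow_add]; congr 1; omega
    rw [this]; ring
  have hkd : k * d + e + c1 = k * (w * 2 ^ (a + m)) + 2 ^ (a + m) := by
    have h4 : c1 * M + c1 = c1 * 2 ^ n := by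
      rw [hM, Nat.mul_sub, mul_one]
      have : c1 ≤ c1 * 2 ^ n := Nat.le_mul_of_pos_right _ (by positivity)
      omega
    rw [← hd', h4, h2nw]
    ring
  have hce : c1 + e < k + 2 ^ m := by omega
  have hkpos2 : k + 2 ^ m ≤ 2 ^ (a + m) := by omega
  have hwd : w * 2 ^ (a + m) ≤ d := by
    have h4 : k * (w * 2 ^ (a + m)) ≤ k * d := by omega
    exact Nat.le_of_mul_le_mul_left h4 hk0
  obtain ⟨d0, hd0⟩ : ∃ d0, d = w * 2 ^ (a + m) + d0 := ⟨d - w * 2 ^ (a + m), by omega⟩
  have hkd0 : k * d0 + e + c1 = 2 ^ (a + m) := by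
    rw [hd0, mul_add] at hkd
    omega
  have hd0lt : d0 < 2 ^ (a + m) := by
    have : d0 ≤ k * d0 := Nat.le_mul_of_pos_left _ hk0
    omega
  set D := d0 / 2 ^ a with hD
  have hDlt : D < 2 ^ m := by
    rw [hD, Nat.div_lt_iff_lt_mul (by positivity), mul_comm, ← ham]
    exact hd0lt
  have hdD : d / 2 ^ a = w * 2 ^ m + D := by
    rw [hd0, ham, show w * (2 ^ a * 2 ^ m) + d0 = d0 + 2 ^ a * (w * 2 ^ m) by ring,
      Nat.add_mul_div_left _ _ (by positivity)]
    omega
  have hjD : D.testBit (j - a) = true := by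
    have h4 : d.testBit j = (d / 2 ^ a).testBit (j - a) := by
      rw [Nat.testBit_div_two_pow]
      congr 1
      omega
    rw [h4, hdD] at hj
    have h5 : (w * 2 ^ m + D).testBit (j - a) = ((w * 2 ^ m + D) % 2 ^ m).testBit (j - a) := by
      rw [Nat.testBit_mod_two_pow]
      simp [hjm]
    rw [h5] at hj
    rw [show (w * 2 ^ m + D) % 2 ^ m = D by
      rw [mul_comm, Nat.mul_add_mod, Nat.mod_eq_of_lt hDlt]] at hj
    exact hj
  -- `D = B` or `D = B - 1`
  have hDa : 2 ^ a * D ≤ d0 := Nat.mul_div_le _ _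
  have hDa2 : d0 < 2 ^ a * (D + 1) := by
    rw [hD]; exact Nat.lt_mul_div_succ _ (by positivity)
  have hDB : D ≤ B := by
    rw [hBdef, Nat.le_div_iff_mul_le hk0]
    have h4 : k * (2 ^ a * D) ≤ k * d0 := Nat.mul_le_mul_left _ hDa
    have h5 : 2 ^ a * (D * k) ≤ 2 ^ a * 2 ^ m := by
      rw [← ham, show 2 ^ a * (D * k) = k * (2 ^ a * D) by ring]
      omega
    exact Nat.le_of_mul_le_mul_left h5 (by positivity)
  have hkey : 2 ^ (a + m) < k * (2 ^ a * (D + 1)) + (c1 + e) := by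
    have h4 : k * d0 < k * (2 ^ a * (D + 1)) := Nat.mul_lt_mul_of_pos_left hDa2 hk0
    omega
  have hamB : 2 ^ (a + m) = k * (2 ^ a * B) + 2 ^ a * ρ := by
    rw [ham, ← hdm]; ring
  rcases hB with hBodd | hsmall
  · -- `B` odd
    have hB1 : B ≤ D + 1 := by
      by_contra hlt
      push Not at hlt
      have h4 : k * (2 ^ a * (D + 1)) + k * 2 ^ a ≤ k * (2 ^ a * B) := by
        have : D + 1 + 1 ≤ B := hlt
        calc k * (2 ^ a * (D + 1)) + k * 2 ^ a = k * (2 ^ a * (D + 1 + 1)) := by ring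
          _ ≤ k * (2 ^ a * B) := Nat.mul_le_mul_left _ (Nat.mul_le_mul_left _ this)
      have h5 : k * (B + 1) ≤ k * 2 ^ a :=
        Nat.mul_le_mul_left _ (hBi.trans (Nat.pow_le_pow_right (by norm_num) hia))
      rw [mul_add, mul_one] at h5
      have h6 : ρ ≤ 2 ^ a * ρ := Nat.le_mul_of_pos_left _ (by positivity)
      linarith
    rcases Nat.lt_or_ge D B with h | h
    · have h4 : D = B - 1 := Nat.eq_sub_of_add_eq (le_antisymm h hB1)
      rw [h4, testBit_pred_of_odd hBodd hBj] at hjD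
      exact absurd hjD (by simp)
    · have h4 : D = B := le_antisymm hDB h
      rw [h4, hBj] at hjD
      exact absurd hjD (by simp)
  · have h4 : 2 ^ (m + 1) ≤ 2 ^ a := Nat.pow_le_pow_right (by norm_num) (by omega)
    have h5 : 2 ^ a ≤ 2 ^ a * ρ := Nat.le_mul_of_pos_right _ hρpos
    have h6 : B < D + 1 := by
      by_contra hge
      push Not at hge
      have h7 : k * (2 ^ a * (D + 1)) ≤ k * (2 ^ a * B) :=
        Nat.mul_le_mul_left _ (Nat.mul_le_mul_left _ hge)
      rw [pow_succ] at h4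
      omega
    have h7 : D = B := le_antisymm hDB (Nat.lt_succ_iff.1 h6)
    rw [h7, hBj] at hjD
    exact absurd hjD (by simp)

end Pool.Agent.H53.OM
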