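import Mathlib
import Pool.Agent.H53.OM.Digits

namespace Pool.Agent.H53.OM

lemma dom_iff (x y : ℕ) : Dom x y ↔ (x % 2 = 1 → y % 2 = 1) ∧ Dom (x / 2) (y / 2) := by
  constructor
  · intro h
    constructor
    · intro hx
      have := h 0 (by rw [Nat.testBit_zero]; simp [hx])
      rw [Nat.testBit_zero] at this
      simpa using this
    · intro j hj
      rw [← Nat.testBit_succ] at hj ⊢
      exact h _ hj
  · rintro ⟨h0, h1⟩ j hj
    cases j with
    | zero =>
      rw [Nat.testBit_zero] at hj ⊢
      simp only [decide_eq_true_eq] at hj ⊢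
      exact h0 hj
    | succ j =>
      rw [Nat.testBit_succ] at hj ⊢
      exact h1 j hj

lemma odd_choose_iff : ∀ (m n k : ℕ), n + k ≤ m → (Odd (n.choose k) ↔ Dom k n) := by
  intro m
  induction m with
  | zero =>
    intro n k h
    have hn : n = 0 := by omega
    have hk : k = 0 := by omega
    subst hn hk
    simp [Dom]
  | succ m ih =>
    intro n k h
    rcases Nat.eq_zero_or_pos (n + k) with h0 | h0
    · have hn : n = 0 := by omega
      have hk : k = 0 := by omega
      subst hn hk
      simp [Dom]
    · have hlt : n / 2 + k / 2 ≤ m := by omega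
      haveI : Fact (Nat.Prime 2) := ⟨Nat.prime_two⟩
      have hmod := Choose.choose_modEq_choose_mod_mul_choose_div_nat (n := n) (k := k) (p := 2)
      have hodd : Odd (n.choose k) ↔
          Odd ((n % 2).choose (k % 2) * (n / 2).choose (k / 2)) := by
        rw [Nat.odd_iff, Nat.odd_iff, hmod]
      rw [hodd, Nat.odd_mul, ih _ _ hlt, dom_iff k n]
      have h2n := Nat.mod_two_eq_zero_or_one n
      have h2k := Nat.mod_two_eq_zero_or_one k
      rcases h2n with h2n | h2n <;> rcases h2k with h2k | h2k <;> rw [h2n, h2k] <;> simp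

theorem odd_choose (n k : ℕ) : Odd (n.choose k) ↔ Dom k n := odd_choose_iff _ n k le_rfl

lemma Dom.trans {x y z : ℕ} (h1 : Dom x y) (h2 : Dom y z) : Dom x z := fun j hj => h2 j (h1 j hj)

end Pool.Agent.H53.OM
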