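import Mathlib
import Pool.Agent.H53.OM.Lucas

namespace Pool.Agent.H53.OM

open Finset

section

variable {K : Type} [Field K] [Fintype K] [DecidableEq K]

omit [DecidableEq K] in
lemma two_eq_zero {n : ℕ} (hn : 0 < n) (hK : Fintype.card K = 2 ^ n) : (2 : K) = 0 := by
  have h1 : ((Fintype.card K : ℕ) : K) = 0 := FiniteField.cast_card_eq_zero K
  rw [hK] at h1
  push_cast at h1
  exact (pow_eq_zero_iff (by omega)).1 h1

/-- sums of powers over a finite field -/
lemma sum_pow_card (K : Type) [Field K] [Fintype K] [DecidableEq K] :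
    ∑ x : K, x ^ (Fintype.card K - 1) = -1 := by
  have h1 : ∀ x : K, x ^ (Fintype.card K - 1) = 1 - (if x = 0 then 1 else 0) := by
    intro x
    by_cases hx : x = 0
    · subst hx
      have : Fintype.card K - 1 ≠ 0 := by
        have := Fintype.one_lt_card (α := K)
        omega
      simp [zero_pow this]
    · rw [FiniteField.pow_card_sub_one_eq_one x hx]
      simp [hx]
  rw [sum_congr rfl (fun x _ => h1 x), sum_sub_distrib, sum_ite_eq']
  simp only [sum_const, card_univ, nsmul_eq_mul, mul_one, mem_univ, if_true]
  rw [FiniteField.cast_card_eq_zero K]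
  ring

lemma pow_mod_eq {k i : ℕ} (y : K) (h1 : 0 < k * i) (h2 : 0 < k * i % (Fintype.card K - 1)) :
    (y ^ k) ^ i = y ^ (k * i % (Fintype.card K - 1)) := by
  rw [← pow_mul]
  by_cases hy : y = 0
  · subst hy
    rw [zero_pow h1.ne', zero_pow h2.ne']
  · have h3 := Nat.div_add_mod (k * i) (Fintype.card K - 1)
    conv_lhs => rw [← h3, pow_add, pow_mul, FiniteField.pow_card_sub_one_eq_one y hy, one_pow,
      one_mul]

/-- the inner sum -/
lemma inner_sum {r d : ℕ} (hr : r < Fintype.card K - 1) (hd0 : 0 < d)
    (hd : d < Fintype.card K - 1) :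
    ∑ x : K, (x + 1) ^ r * x ^ (Fintype.card K - 1 - d) = -((r.choose d : ℕ) : K) := by
  set q := Fintype.card K with hq
  have h1 : ∀ x : K, (x + 1) ^ r * x ^ (q - 1 - d) =
      ∑ j ∈ range (r + 1), ((r.choose j : ℕ) : K) * x ^ (j + (q - 1 - d)) := by
    intro x
    rw [add_pow, sum_mul]
    apply sum_congr rfl
    intro j _
    rw [one_pow, pow_add]
    ring
  rw [sum_congr rfl (fun x _ => h1 x), sum_comm]
  have h2 : ∀ j ∈ range (r + 1), ∑ x : K, ((r.choose j : ℕ) : K) * x ^ (j + (q - 1 - d)) =
      if j = d then -((r.choose d : ℕ) : K) else 0 := by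
    intro j hj
    rw [mem_range] at hj
    rw [← mul_sum]
    split_ifs with hjd
    · subst hjd
      rw [show j + (q - 1 - j) = q - 1 by omega, sum_pow_card]
      ring
    · rcases lt_or_gt_of_ne hjd with h | h
      · rw [FiniteField.sum_pow_lt_card_sub_one K _ (by omega), mul_zero]
      · have h3 : ∀ x : K, x ^ (j + (q - 1 - d)) = x ^ (j - d) := by
          intro x
          by_cases hx : x = 0
          · subst hx
            rw [zero_pow (by omega), zero_pow (by omega)]
          · rw [show j + (q - 1 - d) = (j - d) + (q - 1) by omega, pow_add,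
              FiniteField.pow_card_sub_one_eq_one x hx, mul_one]
        rw [sum_congr rfl (fun x _ => h3 x), FiniteField.sum_pow_lt_card_sub_one K _ (by omega),
          mul_zero]
  rw [sum_congr rfl h2, sum_ite_eq']
  split_ifs with h
  · rfl
  · rw [mem_range] at h
    rw [Nat.choose_eq_zero_of_lt (by omega)]
    simp

/-- Glynn's criterion (necessity) for monomials: if all slopes of `x ^ k` at the point `1` are
different then no `d` is dominated by `k d` modulo `q - 1`. -/
theorem glynn {n k : ℕ} (hn : 0 < n) (hK : Fintype.card K = 2 ^ n) (hk : 0 < k)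
    (hinj : Function.Injective (fun x : K => x ^ k))
    (hslope : ∀ x y : K, x ≠ 0 → y ≠ 0 → ((x + 1) ^ k + 1) / x = ((y + 1) ^ k + 1) / y → x = y) :
    ∀ d, 0 < d → d < 2 ^ n - 1 → ¬ Dom d (k * d % (2 ^ n - 1)) := by
  have h2 := two_eq_zero hn hK
  have hone : (1 : K) + 1 = 0 := by rw [one_add_one_eq_two]; exact h2
  -- residues are nonzero
  have hres : ∀ i, 0 < i → i < 2 ^ n - 1 → 0 < k * i % (2 ^ n - 1) := by
    intro i hi0 hi
    by_contra hcon
    have h0 : k * i % (2 ^ n - 1) = 0 := by omega
    obtain ⟨g, hg⟩ := IsCyclic.exists_generator (α := Kˣ)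
    have hord : orderOf g = 2 ^ n - 1 := by
      rw [orderOf_eq_card_of_forall_mem_zpowers hg, Nat.card_eq_fintype_card,
        Fintype.card_units, hK]
    have h3 : (((g : K) ^ i)) ^ k = (1 : K) ^ k := by
      rw [← pow_mul, mul_comm i k, one_pow]
      obtain ⟨t, ht⟩ := Nat.dvd_of_mod_eq_zero h0
      rw [ht, pow_mul]
      have : (g : K) ^ (2 ^ n - 1) = 1 := by
        rw [← hK]
        exact FiniteField.pow_card_sub_one_eq_one _ g.ne_zero
      rw [this, one_pow]
    have h4 : (g : K) ^ i = 1 := hinj h3
    have h5 : g ^ i = 1 := by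
      ext
      push_cast
      exact h4
    have h6 := orderOf_dvd_of_pow_eq_one h5
    rw [hord] at h6
    have := Nat.le_of_dvd hi0 h6
    omega
  -- the slope map is a bijection
  set φ : K → K := fun x => ((x + 1) ^ k + 1) / x with hφ
  have hφ0 : φ 0 = 0 := by simp [hφ]
  have hφne : ∀ x, x ≠ 0 → φ x ≠ 0 := by
    intro x hx h0
    rw [hφ] at h0
    simp only [div_eq_zero_iff] at h0
    rcases h0 with h0 | h0
    · have h3 : (x + 1) ^ k = (1 : K) ^ k := by
        rw [one_pow]
        have := congrArg (· + (1 : K)) h0
        simp only [zero_add] at this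
        rw [add_assoc, hone, add_zero] at this
        exact this
      have h4 : x + 1 = 1 := hinj h3
      exact hx (by simpa using h4)
    · exact hx h0
  have hφinj : Function.Injective φ := by
    intro x y hxy
    by_cases hx : x = 0
    · by_cases hy : y = 0
      · rw [hx, hy]
      · exfalso
        rw [hx, hφ0] at hxy
        exact hφne y hy hxy.symm
    · by_cases hy : y = 0
      · exfalso
        rw [hy, hφ0] at hxy
        exact hφne x hx hxy
      · exact hslope x y hx hy hxy
  have hφbij : Function.Bijective φ := Finite.injective_iff_bijective.1 hφinj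
  intro d
  induction d using Nat.strong_induction_on with
  | _ d ih =>
    intro hd0 hd hdom
    have hdq : d < Fintype.card K - 1 := by rw [hK]; exact hd
    -- the sum of the `d`-th powers of the slopes
    have hA : ∑ x : K, ((x + 1) ^ k + 1) ^ d * x ^ (Fintype.card K - 1 - d) = 0 := by
      have h3 : ∀ x : K, ((x + 1) ^ k + 1) ^ d * x ^ (Fintype.card K - 1 - d) = φ x ^ d := by
        intro x
        by_cases hx : x = 0
        · subst hx
          rw [hφ0, zero_pow hd0.ne', zero_pow (by omega), mul_zero]
        · rw [hφ]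
          simp only
          rw [div_pow, eq_div_iff (pow_ne_zero _ hx), mul_assoc, ← pow_add,
            show Fintype.card K - 1 - d + d = Fintype.card K - 1 by omega,
            FiniteField.pow_card_sub_one_eq_one x hx, mul_one]
      rw [sum_congr rfl (fun x _ => h3 x)]
      rw [hφbij.sum_comp (fun y => y ^ d)]
      exact FiniteField.sum_pow_lt_card_sub_one K d hdq
    have hB : ∑ i ∈ range (d + 1), ((d.choose i : ℕ) : K) *
        ∑ x : K, ((x + 1) ^ k) ^ i * x ^ (Fintype.card K - 1 - d) = 0 := by
      rw [← hA]
      have h3 : ∀ x : K, ((x + 1) ^ k + 1) ^ d * x ^ (Fintype.card K - 1 - d) =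
          ∑ i ∈ range (d + 1), ((d.choose i : ℕ) : K) *
            (((x + 1) ^ k) ^ i * x ^ (Fintype.card K - 1 - d)) := by
        intro x
        rw [add_pow, sum_mul]
        apply sum_congr rfl
        intro j _
        rw [one_pow]
        ring
      rw [sum_congr rfl (fun x _ => h3 x), sum_comm]
      apply sum_congr rfl
      intro i _
      rw [mul_sum]
    -- only the term `i = d` survives
    have hC : ∀ i ∈ range (d + 1), ((d.choose i : ℕ) : K) *
        ∑ x : K, ((x + 1) ^ k) ^ i * x ^ (Fintype.card K - 1 - d) = if i = d then 1 else 0 := by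
      intro i hi
      rw [mem_range] at hi
      rcases Nat.eq_zero_or_pos i with hi0 | hi0
      · subst hi0
        rw [if_neg hd0.ne]
        simp only [pow_zero, one_mul]
        rw [FiniteField.sum_pow_lt_card_sub_one K _ (by omega), mul_zero]
      · have hr := hres i hi0 (by omega)
        have hlt : k * i % (2 ^ n - 1) < 2 ^ n - 1 := Nat.mod_lt _ (by omega)
        have h3 : ∀ x : K, ((x + 1) ^ k) ^ i * x ^ (Fintype.card K - 1 - d) =
            (x + 1) ^ (k * i % (2 ^ n - 1)) * x ^ (Fintype.card K - 1 - d) := by
          intro x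
          rw [pow_mod_eq (x + 1) (by positivity) (by rw [hK]; exact hr), hK]
        rw [sum_congr rfl (fun x _ => h3 x), inner_sum (by rw [hK]; exact hlt) hd0 hdq]
        have hparity : ∀ a b : ℕ, ((a : ℕ) : K) * -((b : ℕ) : K) = if Odd (a * b) then 1 else 0 := by
          intro a b
          have h4 : ((a : ℕ) : K) * -((b : ℕ) : K) = -((a * b : ℕ) : K) := by push_cast; ring
          rw [h4]
          rcases Nat.even_or_odd' (a * b) with ⟨t, ht | ht⟩
          · rw [ht, if_neg (by simp)]
            push_cast
            rw [h2, zero_mul, neg_zero]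
          · rw [ht, if_pos ⟨t, rfl⟩]
            push_cast
            rw [h2, zero_mul, zero_add]
            exact neg_eq_of_add_eq_zero_left hone
        have hiff : Odd (d.choose i * (k * i % (2 ^ n - 1)).choose d) ↔
            Dom i d ∧ Dom d (k * i % (2 ^ n - 1)) := by
          rw [Nat.odd_mul, odd_choose, odd_choose]
        rw [hparity]
        by_cases hid : i = d
        · rw [if_pos hid, if_pos]
          rw [hiff]
          refine ⟨?_, ?_⟩
          · rw [hid]; exact fun j hj => hj
          · rw [hid]; exact hdom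
        · rw [if_neg hid, if_neg]
          rw [hiff]
          rintro ⟨g1, g2⟩
          exact ih i (by omega) hi0 (by omega) (g1.trans g2)
    rw [sum_congr rfl hC, sum_ite_eq'] at hB
    simp at hB

end

end Pool.Agent.H53.OM
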