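import Mathlib
import Pool.Agent.H53.OM.Glynn

namespace Pool.Agent.H53.OM

/-- one step of the carry automaton of the multiplication by `κ + 1` -/
def Step (κ c c' : ℕ) : Prop := c = 2 * c' ∨ c = 2 * c' + 1 ∨ (c % 2 = 1 ∧ c + κ = 2 * c')

/-- walks of length `n` -/
def Walk (κ : ℕ) : ℕ → ℕ → ℕ → Prop
  | 0, c, c' => c = c'
  | n + 1, c, c' => ∃ c₁, Step κ c c₁ ∧ Walk κ n c₁ c'

lemma Walk.append {κ : ℕ} : ∀ {m n a b c : ℕ}, Walk κ m a b → Walk κ n b c → Walk κ (m + n) a c := by
  intro m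
  induction m with
  | zero =>
    intro n a b c h1 h2
    simp only [Walk] at h1
    subst h1
    simpa using h2
  | succ m ih =>
    intro n a b c h1 h2
    obtain ⟨c₁, hs, hw⟩ := h1
    rw [show m + 1 + n = (m + n) + 1 by ring]
    exact ⟨c₁, hs, ih hw h2⟩

/-- a walk of length `n` from `c` to `c'` gives `c + κ d = e + 2 ^ n c'` with disjoint binary
digits of `d, e` and `d + e < 2 ^ n` -/
lemma Walk.digits {κ : ℕ} : ∀ {n c c' : ℕ}, Walk κ n c c' →
    ∃ d e, d + e < 2 ^ n ∧ c + κ * d = e + 2 ^ n * c' ∧ Dom d (d + e) := by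
  intro n
  induction n with
  | zero =>
    intro c c' h
    simp only [Walk] at h
    subst h
    exact ⟨0, 0, by simp, by simp, fun j hj => by simp at hj⟩
  | succ n ih =>
    intro c c' h
    obtain ⟨c₁, hs, hw⟩ := h
    obtain ⟨d, e, hd, heq, hdis⟩ := ih hw
    have hpow : 2 ^ (n + 1) = 2 * 2 ^ n := by rw [pow_succ]; ring
    have key : ∀ b b', b + b' < 2 → Dom (2 * d + b) ((2 * d + b) + (2 * e + b')) := by
      intro b b' hb j hj
      rw [show (2 * d + b) + (2 * e + b') = 2 * (d + e) + (b + b') by ring]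
      cases j with
      | zero =>
        rw [Nat.testBit_zero] at hj ⊢
        simp only [decide_eq_true_eq] at hj ⊢
        omega
      | succ j =>
        rw [Nat.testBit_succ, show (2 * d + b) / 2 = d by omega] at hj
        rw [Nat.testBit_succ, show (2 * (d + e) + (b + b')) / 2 = d + e by omega]
        exact hdis j hj
    rcases hs with hs | hs | ⟨ho, hs⟩
    · refine ⟨2 * d + 0, 2 * e + 0, by omega, ?_, key 0 0 (by norm_num)⟩
      rw [hs, hpow]; nlinarith
    · refine ⟨2 * d + 0, 2 * e + 1, by omega, ?_, key 0 1 (by norm_num)⟩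
      rw [hs, hpow]; nlinarith
    · refine ⟨2 * d + 1, 2 * e + 0, by omega, ?_, key 1 0 (by norm_num)⟩
      rw [hpow]; nlinarith

/-- a closed walk of length `n` through a vertex `0 < c < κ` -/
theorem exists_dom_of_walk {κ n c : ℕ} (hn : 1 ≤ n) (hc : 0 < c) (hcκ : c < κ)
    (hw : Walk κ n c c) :
    ∃ d, 0 < d ∧ d < 2 ^ n - 1 ∧ ((κ + 1) * d % (2 ^ n - 1) = 0 ∨
      Dom d ((κ + 1) * d % (2 ^ n - 1))) := by
  obtain ⟨d, e, hdelt, heq, hdis⟩ := hw.digits
  have hpos : 2 ≤ 2 ^ n := by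
    calc 2 = 2 ^ 1 := rfl
      _ ≤ 2 ^ n := Nat.pow_le_pow_right (by norm_num) hn
  obtain ⟨M, hM⟩ : ∃ M, 2 ^ n = M + 1 := ⟨2 ^ n - 1, by omega⟩
  have hM1 : 2 ^ n - 1 = M := by omega
  rw [hM1]
  have heq2 : κ * d = e + M * c := by
    rw [hM] at heq
    nlinarith
  have hd0 : 0 < d := by
    rcases Nat.eq_zero_or_pos d with h | h
    · subst h
      rw [mul_zero] at heq2
      have : 0 < M * c := Nat.mul_pos (by omega) hc
      omega
    · exact h
  have hdM : d ≠ M := by
    intro h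
    have he0 : e = 0 := by omega
    rw [he0, h, zero_add, mul_comm] at heq2
    have := Nat.eq_of_mul_eq_mul_left (by omega : 0 < M) heq2
    omega
  refine ⟨d, hd0, by omega, ?_⟩
  have hk : (κ + 1) * d = M * c + (d + e) := by
    rw [add_mul, one_mul, heq2]; ring
  rcases Nat.lt_or_ge (d + e) M with h | h
  · right
    rw [hk, Nat.mul_add_mod, Nat.mod_eq_of_lt h]
    exact hdis
  · left
    have h2 : d + e = M := by omega
    rw [hk, h2]
    simp

open Finset in
/-- `k i` is never divisible by `q - 1` if `x ^ k` is injective -/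
lemma residue_pos {K : Type} [Field K] [Fintype K] [DecidableEq K] {n k : ℕ}
    (hK : Fintype.card K = 2 ^ n) (hinj : Function.Injective (fun x : K => x ^ k)) :
    ∀ i, 0 < i → i < 2 ^ n - 1 → 0 < k * i % (2 ^ n - 1) := by
  intro i hi0 hi
  by_contra hcon
  have h0 : k * i % (2 ^ n - 1) = 0 := by omega
  obtain ⟨g, hg⟩ := IsCyclic.exists_generator (α := Kˣ)
  have hord : orderOf g = 2 ^ n - 1 := by
    rw [orderOf_eq_card_of_forall_mem_zpowers hg, Nat.card_eq_fintype_card,
      Fintype.card_units, hK]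
  have h3 : (((g : K) ^ i)) ^ k = (1 : K) ^ k := by
    rw [← pow_mul, mul_comm i k, one_pow]
    obtain ⟨t, ht⟩ := Nat.dvd_of_mod_eq_zero h0
    rw [ht, pow_mul]
    have : (g : K) ^ (2 ^ n - 1) = 1 := by
      rw [← hK]
      exact FiniteField.pow_card_sub_one_eq_one _ g.ne_zero
    rw [this, one_pow]
  have h4 : (g : K) ^ i = 1 := hinj h3
  have h5 : g ^ i = 1 := by
    ext
    push_cast
    exact h4
  have h6 := orderOf_dvd_of_pow_eq_one h5
  rw [hord] at h6
  have := Nat.le_of_dvd hi0 h6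
  omega

end Pool.Agent.H53.OM
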