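import Mathlib
import Pool.Agent.H46.Hyp.Bound
import Pool.Agent.H53.OM.Walk

namespace Pool.Agent.H53.OM

open Configuration Finset Pool.Agent.H46.Hyp
open scoped LinearAlgebra.Projectivization

section

variable {K : Type} [Field K] [Fintype K] [DecidableEq K]

lemma mk_mem_oSet (f : K → K) (c : K) : Projectivization.mk K (![f c, c, 1] : Fin 3 → K)
    (fun h => one_ne_zero (congrFun h 2)) ∈ oSet K f := by
  classical
  rw [oSet, mem_union, mem_image]
  exact Or.inl ⟨c, mem_univ c, rfl⟩

lemma e2_mem_oSet (f : K → K) : Projectivization.mk K (![0, 1, 0] : Fin 3 → K)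
    (fun h => one_ne_zero (congrFun h 1)) ∈ oSet K f := by
  classical
  rw [oSet, mem_union, mem_insert, mem_singleton]
  exact Or.inr (Or.inr rfl)

lemma mk_eq_mk {f : K → K} {c d : K}
    (h : Projectivization.mk K (![f c, c, 1] : Fin 3 → K)
      (fun h => one_ne_zero (congrFun h 2)) = Projectivization.mk K (![f d, d, 1] : Fin 3 → K)
      (fun h => one_ne_zero (congrFun h 2))) : c = d := by
  rw [Projectivization.mk_eq_mk_iff'] at h
  obtain ⟨a, ha⟩ := h
  have h2 := congrFun ha 2
  have h1 := congrFun ha 1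
  simp at h1 h2
  rw [h2, one_mul] at h1
  exact h1.symm

lemma mk_ne_e2 {f : K → K} {c : K}
    (h : Projectivization.mk K (![f c, c, 1] : Fin 3 → K)
      (fun h => one_ne_zero (congrFun h 2)) = Projectivization.mk K (![0, 1, 0] : Fin 3 → K)
      (fun h => one_ne_zero (congrFun h 1))) : False := by
  rw [Projectivization.mk_eq_mk_iff'] at h
  obtain ⟨a, ha⟩ := h
  have h2 := congrFun ha 2
  simp at h2

theorem inj_of_arc {f : K → K}
    (hH : IsArc (ℙ K (Fin 3 → K)) (ℙ K (Fin 3 → K)) (oSet K f)) : Function.Injective f := by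
  intro x y hxy
  have hl : (![1, 0, -f x] : Fin 3 → K) ≠ 0 := fun h => one_ne_zero (congrFun h 0)
  have h := hH (Projectivization.mk K _ hl) _ (mk_mem_oSet f x) _ (mk_mem_oSet f y) _
    (e2_mem_oSet f)
    (by
      rw [ofField.mem_iff, Projectivization.orthogonal_mk]
      simp [dotProduct, Fin.sum_univ_three])
    (by
      rw [ofField.mem_iff, Projectivization.orthogonal_mk]
      simp [dotProduct, Fin.sum_univ_three, hxy])
    (by
      rw [ofField.mem_iff, Projectivization.orthogonal_mk]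
      simp [dotProduct, Fin.sum_univ_three])
  rcases h with h | h | h
  · exact mk_eq_mk h
  · exact (mk_ne_e2 h).elim
  · exact (mk_ne_e2 h).elim

theorem slope_of_arc {k : ℕ} (h2 : (2 : K) = 0)
    (hH : IsArc (ℙ K (Fin 3 → K)) (ℙ K (Fin 3 → K)) (oSet K fun x => x ^ k)) :
    ∀ x y : K, x ≠ 0 → y ≠ 0 → ((x + 1) ^ k + 1) / x = ((y + 1) ^ k + 1) / y → x = y := by
  intro x y hx hy hxy
  set s := ((x + 1) ^ k + 1) / x with hs
  have h1 : (x + 1) ^ k + 1 = s * x := by rw [hs]; field_simp
  have h1' : (y + 1) ^ k + 1 = s * y := by rw [hxy]; field_simp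
  have hl : (![1, -s, s - 1] : Fin 3 → K) ≠ 0 := fun h => one_ne_zero (congrFun h 0)
  have h := hH (Projectivization.mk K _ hl) _ (mk_mem_oSet (fun x => x ^ k) 1) _
    (mk_mem_oSet (fun x => x ^ k) (x + 1)) _ (mk_mem_oSet (fun x => x ^ k) (y + 1))
    (by
      rw [ofField.mem_iff, Projectivization.orthogonal_mk]
      simp [dotProduct, Fin.sum_univ_three]
      ring)
    (by
      rw [ofField.mem_iff, Projectivization.orthogonal_mk]
      simp [dotProduct, Fin.sum_univ_three]
      linear_combination h1 - h2)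
    (by
      rw [ofField.mem_iff, Projectivization.orthogonal_mk]
      simp [dotProduct, Fin.sum_univ_three]
      linear_combination h1' - h2)
  rcases h with h | h | h
  · exact absurd (by simpa using (mk_eq_mk (f := fun x => x ^ k) h)) hx
  · exact absurd (by simpa using (mk_eq_mk (f := fun x => x ^ k) h)) hy
  · have := mk_eq_mk (f := fun x => x ^ k) h
    exact add_right_cancel this

/-- the combinatorial criterion (Glynn) for an o-monomial -/
theorem not_hyperoval_of_dom {n k : ℕ} (hn : 0 < n) (hK : Fintype.card K = 2 ^ n) (hk : 0 < k)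
    (hd : ∃ d, 0 < d ∧ d < 2 ^ n - 1 ∧ (k * d % (2 ^ n - 1) = 0 ∨ Dom d (k * d % (2 ^ n - 1)))) :
    ¬ IsHyperoval (ℙ K (Fin 3 → K)) (ℙ K (Fin 3 → K)) (oSet K fun x => x ^ k) := by
  rintro ⟨_, hH⟩
  obtain ⟨d, hd0, hd1, hd2⟩ := hd
  have h2 := two_eq_zero hn hK
  have hinj := inj_of_arc hH
  rcases hd2 with h | h
  · have := residue_pos hK hinj d hd0 hd1
    omega
  · exact glynn hn hK hk hinj (slope_of_arc h2 hH) d hd0 hd1 h

end

end Pool.Agent.H53.OM
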