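import Mathlib
import Pool.Agent.H53.OM.Walk

namespace Pool.Agent.H53.OM

/-- the orbit of `1` under halving modulo the odd number `m` -/
def hv (m : ℕ) : ℕ → ℕ
  | 0 => 1
  | t + 1 => if hv m t % 2 = 0 then hv m t / 2 else (hv m t + m) / 2

lemma hv_bounds {m : ℕ} (hodd : m % 2 = 1) (h3 : 3 ≤ m) (t : ℕ) : 1 ≤ hv m t ∧ hv m t < m := by
  induction t with
  | zero => simp only [hv]; omega
  | succ t ih =>
    simp only [hv]
    split_ifs with h <;> omega

lemma hv_succ_even {m t : ℕ} (h : hv m t % 2 = 0) : 2 * hv m (t + 1) = hv m t := by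
  simp only [hv]
  rw [if_pos h]
  omega

lemma hv_succ_odd {m t : ℕ} (hodd : m % 2 = 1) (h : hv m t % 2 = 1) :
    2 * hv m (t + 1) = hv m t + m := by
  simp only [hv]
  rw [if_neg (by omega)]
  omega

lemma hv_coprime {m : ℕ} (hodd : m % 2 = 1) (t : ℕ) : ∃ w, 2 ^ t * hv m t = m * w + 1 := by
  induction t with
  | zero => exact ⟨0, by simp [hv]⟩
  | succ t ih =>
    obtain ⟨w, hw⟩ := ih
    rcases Nat.mod_two_eq_zero_or_one (hv m t) with h | h
    · refine ⟨w, ?_⟩
      rw [pow_succ, mul_assoc, hv_succ_even h, hw]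
    · refine ⟨w + 2 ^ t, ?_⟩
      rw [pow_succ, mul_assoc, hv_succ_odd hodd h, mul_add, hw]
      ring

lemma walk_hv {m : ℕ} (hodd : m % 2 = 1) (h3 : 3 ≤ m) (t : ℕ) :
    Walk (2 * m - 1) t 1 (2 * hv m t - 1) := by
  induction t with
  | zero => simp [Walk, hv]
  | succ t ih =>
    refine ih.append (n := 1) ⟨2 * hv m (t + 1) - 1, ?_, rfl⟩
    have hb := hv_bounds hodd h3 t
    have hb' := hv_bounds hodd h3 (t + 1)
    rcases Nat.mod_two_eq_zero_or_one (hv m t) with h | h
    · have := hv_succ_even h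
      right; left
      omega
    · have := hv_succ_odd hodd h
      right; right
      constructor <;> omega

lemma walk_desc {κ : ℕ} : ∀ j c : ℕ, 2 ^ j ≤ c → c < 2 ^ (j + 1) → Walk κ j c 1 := by
  intro j
  induction j with
  | zero => intro c h1 h2; simp only [Walk]; simp at h1 h2; omega
  | succ j ih =>
    intro c h1 h2
    refine ⟨c / 2, ?_, ih _ ?_ ?_⟩
    · rcases Nat.mod_two_eq_zero_or_one c with h | h
      · left; omega
      · right; left; omega
    · rw [pow_succ] at h1; omega
    · rw [pow_succ] at h2; omega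

theorem walk_two_mod_four {L m n : ℕ} (hodd : m % 2 = 1) (h5 : 5 ≤ m) (hL1 : 2 ^ L < 2 * m)
    (hL2 : m < 2 ^ L) (hn : 3 * L + 4 ≤ n) : Walk (2 * m - 1) n 1 1 := by
  by_contra hno
  have h3 : 3 ≤ m := by omega
  obtain ⟨l, rfl⟩ : ∃ l, L = l + 1 := by
    cases L with
    | zero => simp at hL2; omega
    | succ l => exact ⟨l, rfl⟩
  have hp : 2 ^ (l + 1) = 2 * 2 ^ l := by rw [pow_succ]; ring
  have hp2 : 2 ^ (l + 1 + 1) = 4 * 2 ^ l := by rw [pow_succ, pow_succ]; ring
  have hb := hv_bounds hodd h3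
  set A := 2 ^ (l + 1) - m with hA
  -- exits
  have exA : ∀ t, (hv m t ≤ A ∨ 2 ^ l + 1 ≤ hv m t) → Walk (2 * m - 1) (t + (l + 1)) 1 1 := by
    intro t ht
    have hbt := hb t
    rcases ht with ht | ht
    · refine (walk_hv hodd h3 t).append ?_
      rw [show l + 1 = l + 1 from rfl]
      refine ⟨hv m t + m - 1, ?_, walk_desc l _ ?_ ?_⟩
      · right; right
        constructor <;> omega
      · omega
      · omega
    · refine (walk_hv hodd h3 t).append (walk_desc (l + 1) _ ?_ ?_)
      · omega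
      · omega
  have exB : ∀ s, A + 1 ≤ hv m s → Walk (2 * m - 1) (s + 1 + (l + 1)) 1 1 := by
    intro s hs
    have hbs := hb s
    rw [show s + 1 + (l + 1) = s + ((l + 1) + 1) by ring]
    refine (walk_hv hodd h3 s).append ?_
    refine ⟨hv m s + m - 1, ?_, walk_desc (l + 1) _ ?_ ?_⟩
    · right; right
      constructor <;> omega
    · omega
    · omega
  -- the set of exceptional times
  set X : ℕ → Prop := fun s => hv m s % 2 = 1 ∧ hv m s ≤ A ∧ A + 1 ≤ hv m (s + 1) with hX
  have hXof : ∀ s, ¬ Walk (2 * m - 1) (s + 1 + (l + 1)) 1 1 → X s := by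
    intro s hs
    have h1 : hv m s ≤ A := by
      by_contra hcon
      exact hs (exB s (by omega))
    have h2 : A + 1 ≤ hv m (s + 1) := by
      by_contra hcon
      exact hs (exA (s + 1) (Or.inl (by omega)))
    refine ⟨?_, h1, h2⟩
    rcases Nat.mod_two_eq_zero_or_one (hv m s) with h | h
    · have := hv_succ_even h
      omega
    · exact h
  have hXnot : ∀ s, X s → ¬ X (s + 1) := fun s h1 h2 => by
    have a := h1.2.2
    have b := h2.2.1
    omega
  obtain ⟨T, hT⟩ : ∃ T, n = 2 * (l + 1) + 2 + T := ⟨n - (2 * (l + 1) + 2), by omega⟩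
  have hTL : l + 1 + 2 ≤ T := by omega
  have hcov : ∀ s, s ≤ T → X s ∨ X (T - s) := by
    intro s hs
    by_contra hcon
    push Not at hcon
    have w1 : Walk (2 * m - 1) (s + 1 + (l + 1)) 1 1 := by
      by_contra h; exact hcon.1 (hXof s h)
    have w2 : Walk (2 * m - 1) (T - s + 1 + (l + 1)) 1 1 := by
      by_contra h; exact hcon.2 (hXof _ h)
    have w3 := w1.append w2
    rw [show s + 1 + (l + 1) + (T - s + 1 + (l + 1)) = n by omega] at w3
    exact hno w3
  have hXstep : ∀ s, s + 2 ≤ T → X s → X (s + 2) := by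
    intro s hs h
    have h1 := hXnot s h
    have h2 : X (T - (s + 1)) := (hcov (s + 1) (by omega)).resolve_left h1
    have h3 : ¬ X (T - (s + 2)) := by
      intro h4
      apply hXnot _ h4
      rwa [show T - (s + 2) + 1 = T - (s + 1) by omega]
    exact (hcov (s + 2) hs).resolve_right h3
  obtain ⟨s0, hs0, hXs0⟩ : ∃ s0, s0 ≤ 1 ∧ X s0 := by
    rcases hcov 0 (by omega) with h | h
    · exact ⟨0, by omega, h⟩
    · refine ⟨1, le_rfl, ?_⟩
      rcases hcov 1 (by omega) with h1 | h1
      · exact h1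
      · exfalso
        apply hXnot _ h1
        rwa [show T - 1 + 1 = T - 0 by omega]
  set J := (l + 1 + 1) / 2 with hJ
  have hJ4 : 2 ^ (l + 1) ≤ 4 ^ J := by
    rw [show (4 : ℕ) = 2 ^ 2 by norm_num, ← pow_mul]
    exact Nat.pow_le_pow_right (by norm_num) (by omega)
  have hXall : ∀ j, j ≤ J → X (s0 + 2 * j) := by
    intro j
    induction j with
    | zero => intro _; simpa using hXs0
    | succ j ih =>
      intro hj
      have := hXstep (s0 + 2 * j) (by omega) (ih (by omega))
      rwa [show s0 + 2 * (j + 1) = s0 + 2 * j + 2 by ring]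
  have htype : ∀ j, j < J → 4 * hv m (s0 + 2 * (j + 1)) = hv m (s0 + 2 * j) + m ∨
      4 * hv m (s0 + 2 * (j + 1)) = hv m (s0 + 2 * j) + 3 * m := by
    intro j hj
    have hx := hXall j (by omega)
    have h1 := hv_succ_odd hodd hx.1
    rw [show s0 + 2 * (j + 1) = s0 + 2 * j + 1 + 1 by ring]
    rcases Nat.mod_two_eq_zero_or_one (hv m (s0 + 2 * j + 1)) with h | h
    · have := hv_succ_even h
      left; omega
    · have := hv_succ_odd hodd h
      right; omega
  have hAX : ∀ j, j ≤ J → 2 * A + 2 ≤ hv m (s0 + 2 * j) + m := by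
    intro j hj
    have hx := hXall j hj
    have h1 := hv_succ_odd hodd hx.1
    have h2 := hx.2.2
    omega
  by_cases hth : ∃ j, j < J ∧ 4 * hv m (s0 + 2 * (j + 1)) = hv m (s0 + 2 * j) + 3 * m
  · obtain ⟨j, hj, hj3⟩ := hth
    have hA4 : 3 * m < 4 * A := by
      have := (hXall (j + 1) (by omega)).2.1
      have := (hb (s0 + 2 * j)).1
      omega
    have hall : ∀ i, i < J → 4 * hv m (s0 + 2 * (i + 1)) = hv m (s0 + 2 * i) + 3 * m := by
      intro i hi
      rcases htype i hi with h | h
      · exfalso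
        have h1 := hAX (i + 1) (by omega)
        have h2 := (hb (s0 + 2 * i)).2
        omega
      · exact h
    have hD : ∀ i, i ≤ J → m - hv m s0 = 4 ^ i * (m - hv m (s0 + 2 * i)) := by
      intro i
      induction i with
      | zero => intro _; simp
      | succ i ih =>
        intro hi
        have h1 := ih (by omega)
        have h2 := hall i (by omega)
        have h3 := (hb (s0 + 2 * i)).2
        have h4 := (hb (s0 + 2 * (i + 1))).2
        rw [h1, pow_succ, mul_assoc]
        congr 1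
        omega
    have h1 := hD J le_rfl
    have h2 : 0 < m - hv m (s0 + 2 * J) := by have := (hb (s0 + 2 * J)).2; omega
    have h3 : 4 ^ J * 1 ≤ 4 ^ J * (m - hv m (s0 + 2 * J)) := Nat.mul_le_mul_left _ h2
    omega
  · push Not at hth
    have hall : ∀ i, i < J → 4 * hv m (s0 + 2 * (i + 1)) = hv m (s0 + 2 * i) + m := by
      intro i hi
      rcases htype i hi with h | h
      · exact h
      · exact absurd h (hth i hi)
    have hE : ∀ i, i ≤ J →
        (3 * (hv m s0 : ℤ) - m) = 4 ^ i * (3 * (hv m (s0 + 2 * i) : ℤ) - m) := by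
      intro i
      induction i with
      | zero => intro _; simp
      | succ i ih =>
        intro hi
        have h1 := ih (by omega)
        have h2 := hall i (by omega)
        have h3 : (4 : ℤ) * hv m (s0 + 2 * (i + 1)) = hv m (s0 + 2 * i) + m := by exact_mod_cast h2
        rw [h1, pow_succ, mul_assoc]
        congr 1
        linarith
    have h1 := hE J le_rfl
    have h2 : (3 * (hv m s0 : ℤ) - m) = 0 := by
      apply Int.eq_zero_of_abs_lt_dvd (m := 4 ^ J) ⟨_, h1⟩
      have h4 : (2 : ℤ) ^ (l + 1) ≤ 4 ^ J := by exact_mod_cast hJ4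
      have h5 := (hXall 0 (by omega)).2.1
      simp only [mul_zero, add_zero] at h5
      have h6 := (hb s0).1
      have h7 : (m : ℤ) < 2 ^ (l + 1) := by exact_mod_cast hL2
      have h8 : (2 : ℤ) ^ (l + 1) < 2 * m := by exact_mod_cast hL1
      have h9 : (hv m s0 : ℤ) + m ≤ 2 ^ (l + 1) := by
        have : hv m s0 + m ≤ 2 ^ (l + 1) := by omega
        exact_mod_cast this
      rw [abs_lt]
      constructor
      · have : (1 : ℤ) ≤ hv m s0 := by exact_mod_cast h6
        linarith
      · linarith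
    have h3' : m = 3 * hv m s0 := by
      have : (m : ℤ) = 3 * hv m s0 := by linarith
      exact_mod_cast this
    obtain ⟨w, hw⟩ := hv_coprime hodd s0 (m := m)
    have h4 : hv m s0 ∣ 1 := by
      have h5 : hv m s0 ∣ m * w + 1 := by rw [← hw]; exact dvd_mul_left _ _
      have h6 : hv m s0 ∣ m * w := (Dvd.intro_left 3 h3'.symm).mul_right w
      exact (Nat.dvd_add_right h6).1 h5
    have h5' := Nat.dvd_one.1 h4
    omega

end Pool.Agent.H53.OM
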