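import Mathlib
import Pool.Agent.H46.Hyp.Defs
import Pool.Agent.H46.Hyp.Bound
import Pool.Agent.H53.OM.Digits
import Pool.Agent.H53.OM.Geom

namespace Pool.Agent.H53.OM.Kept.LargeTwoPart

open Configuration Pool.Agent.H46.Hyp Pool.Agent.H53.OM
open scoped LinearAlgebra.Projectivization

/-- Let `K` be a field with `2 ^ n` elements and let `k = 2 ^ a * k'` with `k' ≥ 3` odd,
`2 ^ l < k' < 2 ^ (l + 1)`. Let `1 ≤ i ≤ a`, `a + l + i ≤ n` and let `B = ⌊2 ^ (l + i) / k'⌋` be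
the number formed by the first `l + i` binary digits of `1 / k'`. Suppose that `B` is odd or
`l + i < a`, and that `l < i` or some binary digit `j < i` of `B` is `0` with
`k' ≢ ± 1 mod 2 ^ (i - j)`. Then `x ^ k` is not an o-polynomial of `K`.

In particular (`i = l + 1`) `x ^ k` is not an o-polynomial as soon as `2 * l + 2 ≤ a` and
`a + 2 * l + 1 ≤ n`. -/
theorem result (K : Type) [Field K] [Fintype K] [DecidableEq K] (n a l i k' : ℕ)
    (hK : Fintype.card K = 2 ^ n) (hodd : Odd k') (h3 : 3 ≤ k')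
    (hl1 : 2 ^ l < k') (hl2 : k' < 2 ^ (l + 1))
    (hi : 1 ≤ i) (hia : i ≤ a) (hn : a + l + i ≤ n)
    (hB : Odd (2 ^ (l + i) / k') ∨ l + i < a)
    (hcase : l < i ∨ ∃ j < i, (2 ^ (l + i) / k').testBit j = false ∧
      k' % 2 ^ (i - j) ≠ 1 ∧ k' % 2 ^ (i - j) ≠ 2 ^ (i - j) - 1) :
    ¬ IsHyperoval (ℙ K (Fin 3 → K)) (ℙ K (Fin 3 → K)) (oSet K fun x => x ^ (2 ^ a * k')) := by
  have hn0 : 0 < n := by omega
  have hkn : k' < 2 ^ n - 1 := by
    have h1 : 2 ^ (l + 2) ≤ 2 ^ n := Nat.pow_le_pow_right (by norm_num) (by omega)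
    have h2 : 2 ^ (l + 2) = 2 * 2 ^ (l + 1) := by rw [pow_succ]; ring
    omega
  refine not_hyperoval_of_dom hn0 hK (by positivity) ?_
  rcases exists_dom hodd h3 hi hia hl1 hl2 hn hB hcase with h | ⟨d, hd0, hd1, hd⟩
  · obtain ⟨m, hm⟩ := h
    refine ⟨m, ?_, ?_, Or.inl ?_⟩
    · rcases Nat.eq_zero_or_pos m with h0 | h0
      · rw [h0, mul_zero] at hm; omega
      · exact h0
    · have : 3 * m ≤ k' * m := Nat.mul_le_mul_right _ h3
      have h0 : 0 < m := by
        rcases Nat.eq_zero_or_pos m with h0 | h0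
        · rw [h0, mul_zero] at hm; omega
        · exact h0
      omega
    · rw [mul_assoc, ← hm]
      exact Nat.mul_mod_left _ _
  · exact ⟨d, hd0, hd1, Or.inr hd⟩

end Pool.Agent.H53.OM.Kept.LargeTwoPart
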